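import Pool.Agent.H89.KD.Stmts
import Pool.Agent.H91.Sym.A1

/-!
# Project KD, module IBT: integration by parts for the tilted measures
-/

set_option autoImplicit false
set_option linter.unusedSectionVars false

open MeasureTheory Set Filter Topology
open scoped ContDiff

namespace Pool.Agent.H89.KD

open Pool.Agent.H84 Pool.Agent.H84.Sym Pool.Agent.H84.Sym.P2x Pool.Agent.H19.KL
open Pool.Agent.H73.KG Pool.Agent.H20.KH

section

variable {E : Type} [NormedAddCommGroup E] [InnerProductSpace ℝ E]
    [FiniteDimensional ℝ E] [MeasurableSpace E] [BorelSpace E]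

theorem ibt_smooth {U : E → ℝ} (hU : ContDiff ℝ 2 U) (θ : E) : ContDiff ℝ 2 (tp U 0 θ) := by
  have h : tp U 0 θ = fun x => U x + (-(inner ℝ θ x : ℝ)) := by
    funext x; simp [tp]; ring
  rw [h]
  exact hU.add (contDiff_const.inner ℝ contDiff_id).neg

theorem ibt_D {U : E → ℝ} (hU : ContDiff ℝ 2 U) (θ v x : E) :
    D v (tp U 0 θ) x = D v U x - inner ℝ θ v := by
  have h : tp U 0 θ = fun x => U x - (inner ℝ θ x : ℝ) := by
    funext x; simp [tp]
  have h1 : HasFDerivAt (fun x : E => (inner ℝ θ x : ℝ)) (innerSL ℝ θ) x :=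
    (innerSL ℝ θ).hasFDerivAt
  have h2 : HasFDerivAt U (fderiv ℝ U x) x :=
    (hU.differentiable (by norm_num) x).hasFDerivAt
  have h3 : HasFDerivAt (fun x : E => U x - (inner ℝ θ x : ℝ)) (fderiv ℝ U x - innerSL ℝ θ) x :=
    h2.sub h1
  unfold D
  rw [h, h3.fderiv]
  simp

theorem ibt_hcs {ι : Type} (s : Finset ι) (F : ι → E → ℝ) (h : ∀ i, HasCompactSupport (F i)) :
    HasCompactSupport fun x => ∑ i ∈ s, F i x := by
  classical
  induction s using Finset.induction_on with
  | empty =>
    simp only [Finset.sum_empty]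
    exact HasCompactSupport.zero
  | insert a s ha ih =>
    simp only [Finset.sum_insert ha]
    exact (h a).add ih

theorem ibt_thm : IBTStmt E := by
  intro U t hPP ι _ b u hu θ
  obtain ⟨⟨C, hU⟩, -⟩ := hPP
  have hW : ContDiff ℝ 2 (tp U 0 θ) := ibt_smooth hU.smooth θ
  have hW1 : ContDiff ℝ 1 (tp U 0 θ) := hW.of_le (by norm_num)
  have hu2 : ContDiff ℝ 2 u := by simpa using contDiff_infty.mp hu.1 2
  have g0 := green b (f := fun _ => (1:ℝ)) hW1 hu2 contDiff_const (Or.inl hu.2)
  have h1 : ∀ x, (∑ i, D (b i) u x * D (b i) (fun _ : E => (1:ℝ)) x) = 0 := by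
    intro x
    refine Finset.sum_eq_zero fun i _ => ?_
    simp [D]
  simp only [h1, mul_one, integral_zero, neg_zero] at g0
  rw [integral_mu hW.continuous] at g0
  have hLO : ∀ x, LO b (tp U 0 θ) u x =
      LO b U u x + ∑ i, inner ℝ (b i) θ * D (b i) u x := by
    intro x
    unfold LO
    simp only [ibt_D hU.smooth]
    rw [← sub_eq_zero]
    have : ∑ i, (D (b i) U x - inner ℝ θ (b i)) * D (b i) u x =
        ∑ i, D (b i) U x * D (b i) u x - ∑ i, inner ℝ (b i) θ * D (b i) u x := by
      rw [← Finset.sum_sub_distrib]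
      refine Finset.sum_congr rfl fun i _ => ?_
      rw [real_inner_comm]; ring
    rw [this]; ring
  have hexp : Continuous fun x => Real.exp (-tp U 0 θ x) :=
    Real.continuous_exp.comp hW.continuous.neg
  have hDu : ∀ i, Continuous (D (b i) u) := fun i =>
    (contDiff_D (m := 1) hu2 (by norm_num) (b i)).continuous
  have hint : ∀ i, Integrable fun x => inner ℝ (b i) θ * D (b i) u x * Real.exp (-tp U 0 θ x) := by
    intro i
    refine Continuous.integrable_of_hasCompactSupport
      ((continuous_const.mul (hDu i)).mul hexp) ?_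
    exact ((hcs_D hu.2 (b i)).mul_left).mul_right
  have hLOc : Continuous (LO b (tp U 0 θ) u) := by
    unfold LO
    refine Continuous.sub ?_ ?_
    · exact continuous_finsetSum _ fun i _ =>
        (contDiff_D (m := 0) (contDiff_D (m := 1) hu2 (by norm_num) (b i)) (by norm_num)
          (b i)).continuous
    · exact continuous_finsetSum _ fun i _ =>
        (contDiff_D (m := 1) hW (by norm_num) (b i)).continuous.mul (hDu i)
  have hLOcs : HasCompactSupport (LO b (tp U 0 θ) u) := by
    unfold LO
    refine HasCompactSupport.sub ?_ ?_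
    · exact ibt_hcs _ _ fun i => hcs_D (hcs_D hu.2 (b i)) (b i)
    · exact ibt_hcs _ (fun i x => D (b i) (tp U 0 θ) x * D (b i) u x) fun i =>
        (hcs_D hu.2 (b i)).mul_left
  have hint0 : Integrable fun x => LO b (tp U 0 θ) u x * Real.exp (-tp U 0 θ x) :=
    Continuous.integrable_of_hasCompactSupport (hLOc.mul hexp) hLOcs.mul_right
  have hZ : ZF U 0 θ (fun x => -LO b U u x) = ∑ i, inner ℝ (b i) θ * ZF U 0 θ (D (b i) u) := by
    unfold ZF
    have e1 : (fun x => -LO b U u x * Real.exp (-tp U 0 θ x)) = fun x =>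
        (∑ i, inner ℝ (b i) θ * D (b i) u x * Real.exp (-tp U 0 θ x)) -
          LO b (tp U 0 θ) u x * Real.exp (-tp U 0 θ x) := by
      funext x
      rw [hLO, ← Finset.sum_mul]; ring
    rw [e1, integral_sub (integrable_finsetSum _ fun i _ => hint i) hint0, g0, sub_zero,
      integral_finsetSum _ fun i _ => hint i]
    refine Finset.sum_congr rfl fun i _ => ?_
    rw [← integral_const_mul]
    refine integral_congr_ae (ae_of_all _ fun x => ?_)
    simp only
    ring
  unfold pm
  rw [hZ, Finset.sum_div]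
  exact Finset.sum_congr rfl fun i _ => by rw [mul_div_assoc]

end

end Pool.Agent.H89.KD
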